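import Pool.Agent.Y818.IC.AUT
import Pool.Agent.Y818.IC.MU1
import Pool.Agent.Y818.IC.MUF
import Pool.Agent.Y818.IC.ABS1
import Pool.Agent.Y818.IC.ABS2
import Pool.Agent.Y818.IC.VAR
import Pool.Agent.Y818.IC.SWS
import Pool.Agent.Y818.IC.AAJ

/-!
# Almost all special points of `Y(1)ⁿ` have equidistributed Galois orbits

`Y(1) = SL₂(ℤ) \ ℍ` is identified with `ℂ` by the modular function `j = E₄³ / Δ`, so that
`Y(1)ⁿ = ℂⁿ` (the Shimura variety of `G = GL₂ⁿ`, up to components).  `pts D` is the finite set
of the special points of `ℂⁿ` whose coordinates are singular moduli of the discriminants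
`D 1, …, D n`; `mu` is the image in `ℂ` of the measure `(3/π) dx dy / y²` on the fundamental
domain (it has total mass one, see `mu_univ`), and `orb F.fixingSubgroup v` is the Galois orbit
of `v` over the number field `F ⊆ ℂ`.

Published theorems used as hypotheses: `CMTheory` (main theorem of complex multiplication) and
`TwistedDuke δ` (Duke's theorem twisted by class group characters, with a power saving: Duke,
Duke-Friedlander-Iwaniec, Zhang, Michel, Harcos-Michel, Michel-Venkatesh).

No condition relates the coordinates; in particular the CM fields and the discriminants may be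
equal, which for `n = 2` is the situation of the mixing conjecture of Michel and Venkatesh.

Parts of the proof by helpers 15, 87, 100, 237, 350, 515.
-/

set_option autoImplicit false

open MeasureTheory

namespace Pool.Agent.Results.MP_9177b7_ag.AlmostAllSpecialPoints

open Pool.Agent.Y818.IC

/-- `mu` is a probability measure (and `j` is measurable, so that `mu` is the image measure). -/
theorem mu_univ : Measurable j ∧ mu Set.univ = 1 := mu1

theorem result (cm : CMTheory) (δ : ℝ) (hδ : 0 < δ) (duke : TwistedDuke δ) :
    ∀ (n : ℕ) (F : IntermediateField ℚ ℂ), FiniteDimensional ℚ F →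
      ∀ f : (Fin n → ℂ) → ℝ, Continuous f → HasCompactSupport f → ∀ ε : ℝ, 0 < ε →
      ∃ C : ℝ, ∀ (D : Fin n → ℤ) (b : ℝ), 0 < b → (∀ l, D l < 0 ∧ b ≤ |(D l : ℝ)|) →
        (({v | v ∈ pts D ∧ ε < |avg (orb F.fixingSubgroup v) f -
          ∫ w, f w ∂(Measure.pi fun _ : Fin n => mu)|} : Set (Fin n → ℂ)).ncard : ℝ) ≤
          C * b ^ (-(2 * δ)) * ∏ l, ((sing (D l)).ncard : ℝ) :=
  aaj cm aut (var aut (abs2 abs1)) sws muf δ hδ duke

end Pool.Agent.Results.MP_9177b7_ag.AlmostAllSpecialPoints
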